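import Mathlib

/-!
# Derivations of the reals with prescribed values at algebraically independent numbers
-/

set_option autoImplicit false

namespace Pool.Agent.R115.Lk

open Algebra

open scoped IntermediateField.algebraAdjoinAdjoin in
theorem formallySmooth_real {ι : Type} (x : ι → ℝ) :
    FormallySmooth (Algebra.adjoin ℚ (Set.range x)) ℝ := by
  set K := IntermediateField.adjoin ℚ (Set.range x) with hK
  have h1 : FormallySmooth (Algebra.adjoin ℚ (Set.range x)) K :=
    .of_isLocalization (nonZeroDivisors _)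
  have h2 : FormallySmooth K ℝ := by
    obtain ⟨κ, y, hy⟩ := exists_isTranscendenceBasis' K ℝ
    have h3 := hy.isAlgebraic_field
    exact .of_algebraicIndependent_of_isSeparable hy.1
  exact .comp _ K _

/-- the dual numbers -/
abbrev B := TrivSqZeroExt ℝ ℝ

theorem fst_pt (a b : ℝ) :
    TrivSqZeroExt.fst (TrivSqZeroExt.inl a + TrivSqZeroExt.inr b : B) = a := by
  rw [TrivSqZeroExt.fst_add, TrivSqZeroExt.fst_inl, TrivSqZeroExt.fst_inr, add_zero]

theorem snd_pt (a b : ℝ) :
    TrivSqZeroExt.snd (TrivSqZeroExt.inl a + TrivSqZeroExt.inr b : B) = b := by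
  rw [TrivSqZeroExt.snd_add, TrivSqZeroExt.snd_inl, TrivSqZeroExt.snd_inr, zero_add]

/-- for algebraically independent real numbers `x i` and arbitrary real numbers `v i` there is a
derivation of the field of real numbers with value `v i` at `x i` -/
theorem exists_derivation {ι : Type} {x : ι → ℝ} (hx : AlgebraicIndependent ℚ x) (v : ι → ℝ) :
    ∃ D : ℝ → ℝ, (∀ a b, D (a + b) = D a + D b) ∧ (∀ a b, D (a * b) = a * D b + b * D a) ∧
      ∀ i, D (x i) = v i := by
  have hsm := formallySmooth_real x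
  set R0 := Algebra.adjoin ℚ (Set.range x) with hR0
  let ψ : R0 →ₐ[ℚ] B :=
    (MvPolynomial.aeval (fun i => (TrivSqZeroExt.inl (x i) + TrivSqZeroExt.inr (v i) : B))).comp
      hx.aevalEquiv.symm.toAlgHom
  have hψx : ∀ i, ψ ⟨x i, Algebra.subset_adjoin ⟨i, rfl⟩⟩ =
      (TrivSqZeroExt.inl (x i) + TrivSqZeroExt.inr (v i) : B) := by
    intro i
    have h1 : hx.aevalEquiv.symm ⟨x i, Algebra.subset_adjoin ⟨i, rfl⟩⟩ = MvPolynomial.X i := by
      rw [AlgEquiv.symm_apply_eq]
      apply Subtype.ext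
      simp
    show (MvPolynomial.aeval (fun i => (TrivSqZeroExt.inl (x i) + TrivSqZeroExt.inr (v i) : B)))
      (hx.aevalEquiv.symm ⟨x i, Algebra.subset_adjoin ⟨i, rfl⟩⟩) = _
    rw [h1, MvPolynomial.aeval_X]
  have hfst : ∀ r : R0, (ψ r).fst = (r : ℝ) := by
    intro r
    obtain ⟨P, rfl⟩ := hx.aevalEquiv.surjective r
    have h2 : ψ (hx.aevalEquiv P) = (MvPolynomial.aeval
        (fun i => (TrivSqZeroExt.inl (x i) + TrivSqZeroExt.inr (v i) : B))) P := by
      show (MvPolynomial.aeval _) (hx.aevalEquiv.symm (hx.aevalEquiv P)) = _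
      rw [AlgEquiv.symm_apply_apply]
    rw [h2]
    have h3 : ((hx.aevalEquiv P : R0) : ℝ) = MvPolynomial.aeval x P := by
      simp
    rw [h3]
    have h4 : (TrivSqZeroExt.fstHom ℚ ℝ ℝ).comp (MvPolynomial.aeval
        (fun i => (TrivSqZeroExt.inl (x i) + TrivSqZeroExt.inr (v i) : B))) =
        MvPolynomial.aeval x := by
      apply MvPolynomial.algHom_ext
      intro i
      rw [AlgHom.comp_apply, MvPolynomial.aeval_X, MvPolynomial.aeval_X]
      exact fst_pt _ _
    exact DFunLike.congr_fun h4 P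
  let algB : Algebra R0 B := ψ.toRingHom.toAlgebra
  let g : B →ₐ[R0] ℝ :=
    { (TrivSqZeroExt.fstHom ℚ ℝ ℝ).toRingHom with
      commutes' := by
        intro r
        exact hfst r }
  have hgs : Function.Surjective g := by
    intro r
    exact ⟨TrivSqZeroExt.inl r, rfl⟩
  have hgn : IsNilpotent (RingHom.ker (g : B →+* ℝ)) := by
    refine ⟨2, ?_⟩
    have hpow : (RingHom.ker (g : B →+* ℝ)) ^ 2 =
      (RingHom.ker (g : B →+* ℝ)) * (RingHom.ker (g : B →+* ℝ)) := sq _
    rw [hpow, Ideal.zero_eq_bot, eq_bot_iff, Ideal.mul_le]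
    intro a ha b hb
    have ha' : a.fst = 0 := ha
    have hb' : b.fst = 0 := hb
    rw [Ideal.mem_bot]
    apply TrivSqZeroExt.ext
    · rw [TrivSqZeroExt.fst_mul, ha', zero_mul, TrivSqZeroExt.fst_zero]
    · rw [TrivSqZeroExt.snd_mul, ha', hb', TrivSqZeroExt.snd_zero, zero_smul,
        MulOpposite.op_zero, zero_smul, add_zero]
  let φ : ℝ →ₐ[R0] B := FormallySmooth.liftOfSurjective (AlgHom.id R0 ℝ) g hgs hgn
  have hφ : ∀ r, (φ r).fst = r := by
    intro r
    exact FormallySmooth.liftOfSurjective_apply (AlgHom.id R0 ℝ) g hgs hgn r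
  refine ⟨fun r => (φ r).snd, fun a b => ?_, fun a b => ?_, fun i => ?_⟩
  · have h8 : φ (a + b) = φ a + φ b := map_add φ a b
    show (φ (a + b)).snd = (φ a).snd + (φ b).snd
    rw [h8]
    rfl
  · have h8 : φ (a * b) = φ a * φ b := map_mul φ a b
    show (φ (a * b)).snd = a * (φ b).snd + b * (φ a).snd
    rw [h8]
    have h9 : (φ a * φ b).snd = (φ a).fst * (φ b).snd + (φ a).snd * (φ b).fst := rfl
    rw [h9, hφ, hφ]
    ring
  · have h5 : φ (algebraMap R0 ℝ ⟨x i, Algebra.subset_adjoin ⟨i, rfl⟩⟩) =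
        algebraMap R0 B ⟨x i, Algebra.subset_adjoin ⟨i, rfl⟩⟩ := φ.commutes _
    have h6 : algebraMap R0 B ⟨x i, Algebra.subset_adjoin ⟨i, rfl⟩⟩ =
        ψ ⟨x i, Algebra.subset_adjoin ⟨i, rfl⟩⟩ := rfl
    rw [h6, hψx] at h5
    have h7 : (algebraMap R0 ℝ ⟨x i, Algebra.subset_adjoin ⟨i, rfl⟩⟩ : ℝ) = x i := rfl
    rw [h7] at h5
    show (φ (x i)).snd = v i
    rw [h5]
    exact snd_pt _ _

end Pool.Agent.R115.Lk
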