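import Mathlib

/-!
# Generic points: existence, translation
-/

set_option autoImplicit false

namespace Pool.Agent.R115.Lk

open Cardinal

/-- there are arbitrarily many real numbers which are algebraically independent over a given
countable subfield -/
theorem exists_algInd (K : IntermediateField ℚ ℝ) (hK : Cardinal.mk K ≤ ℵ₀) (σ : Type)
    [Finite σ] : ∃ y : σ → ℝ, AlgebraicIndependent K y := by
  obtain ⟨ι, x, hx⟩ := exists_isTranscendenceBasis' K ℝ
  have hinf : Infinite ι := by
    by_contra h
    rw [not_infinite_iff_finite] at h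
    rcases isEmpty_or_nonempty ι with he | hne
    · have h1 : Algebra.IsAlgebraic K ℝ := hx.isEmpty_iff_isAlgebraic.1 he
      have h2 := Algebra.IsAlgebraic.cardinalMk_le_max K ℝ
      rw [Cardinal.mk_real] at h2
      exact absurd (h2.trans (max_le hK le_rfl)) (not_le.2 Cardinal.aleph0_lt_continuum)
    · have h2 := hx.lift_cardinalMk_eq_max_lift
      have h3 : Cardinal.mk ι < Cardinal.aleph0 := Cardinal.lt_aleph0_of_finite ι
      simp only [Cardinal.lift_id, Cardinal.mk_real] at h2
      have h4 : (Cardinal.mk K ⊔ Cardinal.mk ι ⊔ Cardinal.aleph0) ≤ Cardinal.aleph0 := by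
        simp [h3.le, hK]
      have h5 : Cardinal.continuum ≤ Cardinal.aleph0 := h2.le.trans h4
      exact absurd h5 (not_le.2 Cardinal.aleph0_lt_continuum)
  have : Nonempty (σ ↪ ι) := by
    have := Fintype.ofFinite σ
    exact ⟨(Function.Embedding.nonempty_of_card_le
      (by simp : Fintype.card σ ≤ Fintype.card (Fin (Fintype.card σ)))).some.trans
        ((Fin.valEmbedding).trans (Infinite.natEmbedding ι))⟩
  obtain ⟨e⟩ := this
  exact ⟨fun v => x (e v), hx.1.comp e e.injective⟩

/-- translation by elements of the base field preserves algebraic independence -/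
theorem algInd_translate {K : IntermediateField ℚ ℝ} {σ : Type} {y : σ → ℝ}
    (hy : AlgebraicIndependent K y) (c : σ → K) :
    AlgebraicIndependent K (fun i => y i + (c i : ℝ)) := by
  rw [algebraicIndependent_iff]
  intro P hP
  let τ : MvPolynomial σ K →ₐ[K] MvPolynomial σ K :=
    MvPolynomial.aeval (fun i => MvPolynomial.X i + MvPolynomial.C (c i))
  let τ' : MvPolynomial σ K →ₐ[K] MvPolynomial σ K :=
    MvPolynomial.aeval (fun i => MvPolynomial.X i - MvPolynomial.C (c i))
  have h1 : τ'.comp τ = AlgHom.id K _ := by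
    apply MvPolynomial.algHom_ext
    intro i
    simp only [τ, τ', AlgHom.comp_apply, MvPolynomial.aeval_X, map_add, AlgHom.id_apply]
    rw [← MvPolynomial.algebraMap_eq, AlgHom.commutes]
    ring
  have h2 : (MvPolynomial.aeval y : MvPolynomial σ K →ₐ[K] ℝ).comp τ =
      MvPolynomial.aeval (fun i => y i + (c i : ℝ)) := by
    apply MvPolynomial.algHom_ext
    intro i
    simp only [τ, AlgHom.comp_apply, MvPolynomial.aeval_X, map_add]
    rw [← MvPolynomial.algebraMap_eq, AlgHom.commutes]
    rfl
  have h3 : MvPolynomial.aeval y (τ P) = 0 := by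
    have := DFunLike.congr_fun h2 P
    rw [AlgHom.comp_apply] at this
    rw [this, hP]
  have h4 : τ P = 0 := hy.eq_zero_of_aeval_eq_zero _ h3
  have h5 := DFunLike.congr_fun h1 P
  rw [AlgHom.comp_apply, h4, map_zero] at h5
  exact h5.symm

/-- for a generic `p` and an arbitrary `z` there is `y` such that both `(y, p)` and `(y + z, p)`
are generic -/
theorem exists_extend {ι σ : Type} [Finite ι] [Finite σ] {p : ι → ℝ}
    (hp : AlgebraicIndependent ℚ p) (z : σ → ℝ) :
    ∃ y : σ → ℝ, AlgebraicIndependent ℚ (Sum.elim y p) ∧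
      AlgebraicIndependent ℚ (Sum.elim (fun i => y i + z i) p) := by
  set K := IntermediateField.adjoin ℚ (Set.range p ∪ Set.range z) with hKdef
  have hK : Cardinal.mk K ≤ ℵ₀ := by
    refine (IntermediateField.cardinalMk_adjoin_le ℚ (Set.range p ∪ Set.range z)).trans ?_
    have h1 : Cardinal.mk ↑(Set.range p ∪ Set.range z) ≤ ℵ₀ := by
      have : Finite ↑(Set.range p ∪ Set.range z) := inferInstance
      exact (Cardinal.lt_aleph0_of_finite _).le
    simp only [Cardinal.mkRat]
    exact max_le (max_le le_rfl h1) le_rfl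
  obtain ⟨y, hy⟩ := exists_algInd K hK σ
  have hpK : Set.range p ⊆ Set.range (algebraMap K ℝ) := by
    rintro _ ⟨i, rfl⟩
    exact ⟨⟨p i, IntermediateField.subset_adjoin _ _ (Or.inl ⟨i, rfl⟩)⟩, rfl⟩
  refine ⟨y, hp.sumElim_of_tower hpK hy, hp.sumElim_of_tower hpK ?_⟩
  exact algInd_translate hy
    (fun i => ⟨z i, IntermediateField.subset_adjoin _ _ (Or.inr ⟨i, rfl⟩)⟩)

end Pool.Agent.R115.Lk
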