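import Pool.Agent.R115.Lk.Deriv
import Pool.Agent.R115.Lk.Gen

/-!
# Linked pairs in dimension `d + 1` are globally linked in dimension `d`
-/

set_option autoImplicit false

namespace Pool.Agent.R115.Lk

open Finset

variable {V : Type} [Fintype V]

/-- the bilinear form of the pair `x, y`: the scalar product of `p x - p y` and `w x - w y` -/
def S {d : ℕ} (p w : V → Fin d → ℝ) (x y : V) : ℝ := ∑ k, (p x k - p y k) * (w x k - w y k)

/-- a generic placement: the coordinates are algebraically independent over `ℚ` -/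
def Gen {d : ℕ} (p : V → Fin d → ℝ) : Prop :=
  AlgebraicIndependent ℚ (fun c : V × Fin d => p c.1 c.2)

omit [Fintype V] in
/-- infinitesimal length changes at `p` are infinitesimal length changes at `q` -/
theorem vel_transfer {d : ℕ} {p q : V → Fin d → ℝ} (hp : Gen p) {E : Set (V × V)}
    (hE : ∀ e ∈ E, S p p e.1 e.2 = S q q e.1 e.2) (w : V → Fin d → ℝ) :
    ∃ w' : V → Fin d → ℝ, ∀ e ∈ E, S q w' e.1 e.2 = S p w e.1 e.2 := by
  obtain ⟨D, hadd, hmul, hD⟩ := exists_derivation hp (fun c => w c.1 c.2)
  refine ⟨fun v k => D (q v k), fun e he => ?_⟩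
  have h0 : D 0 = 0 := by
    have := hadd 0 0
    rw [add_zero] at this
    linarith
  have hsub : ∀ a b, D (a - b) = D a - D b := by
    intro a b
    have := hadd (a - b) b
    rw [sub_add_cancel] at this
    linarith
  have hsum : ∀ (f : Fin d → ℝ), D (∑ k, f k) = ∑ k, D (f k) := by
    intro f
    let Dh : ℝ →+ ℝ := { toFun := D, map_zero' := h0, map_add' := hadd }
    exact map_sum Dh f univ
  have hS : ∀ r : V → Fin d → ℝ, D (S r r e.1 e.2) =
      2 * ∑ k, (r e.1 k - r e.2 k) * (D (r e.1 k) - D (r e.2 k)) := by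
    intro r
    unfold S
    rw [hsum, mul_sum]
    apply sum_congr rfl
    intro k _
    rw [hmul, hsub]
    ring
  have h1 := hS p
  have h2 := hS q
  rw [hE e he] at h1
  rw [h1] at h2
  unfold S
  have h3 : ∀ v k, D (p v k) = w v k := fun v k => hD (v, k)
  simp only [h3] at h2
  linarith

section rows

variable [DecidableEq V]

/-- the row of the pair `e` of the rigidity matrix at `p` -/
def row {d : ℕ} (p : V → Fin d → ℝ) (e : V × V) : V × Fin d → ℝ := fun c =>
  if c.1 = e.1 then p e.1 c.2 - p e.2 c.2 else if c.1 = e.2 then p e.2 c.2 - p e.1 c.2 else 0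

theorem row_dot {d : ℕ} (p w : V → Fin d → ℝ) (e : V × V) :
    ∑ c, row p e c * w c.1 c.2 = S p w e.1 e.2 := by
  rw [Fintype.sum_prod_type_right]
  unfold S
  apply sum_congr rfl
  intro k _
  by_cases he : e.1 = e.2
  · have : ∀ v, row p e (v, k) * w v k = 0 := by
      intro v
      simp only [row, he, sub_self]
      split_ifs <;> simp
    simp only [this, sum_const_zero, he, sub_self, zero_mul]
  · have : ∀ v, row p e (v, k) * w v k =
        (if v = e.1 then (p e.1 k - p e.2 k) * w e.1 k else 0) +
        (if v = e.2 then (p e.2 k - p e.1 k) * w e.2 k else 0) := by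
      intro v
      simp only [row]
      by_cases h1 : v = e.1
      · have h2 : v ≠ e.2 := fun h => he (h1.symm.trans h)
        rw [if_pos h1, if_pos h1, if_neg h2, h1, add_zero]
      · rw [if_neg h1, if_neg h1, zero_add]
        split_ifs with h2
        · rw [h2]
        · rw [zero_mul]
    simp only [this, sum_add_distrib, sum_ite_eq', mem_univ, if_true]
    ring

/-- the matrix with the rows of the pairs `f i` -/
def mat {d : ℕ} {ι : Type} (p : V → Fin d → ℝ) (f : ι → V × V) : Matrix ι (V × Fin d) ℝ :=
  Matrix.of (fun i => row p (f i))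

theorem gram {d : ℕ} {ι : Type} [Fintype ι] [DecidableEq ι] (p : V → Fin d → ℝ) (f : ι → V × V) :
    LinearIndependent ℝ (fun i => row p (f i)) ↔ (mat p f * (mat p f).transpose).det ≠ 0 := by
  constructor
  · intro h h0
    obtain ⟨x, hx, hx0⟩ := Matrix.exists_vecMul_eq_zero_iff.2 h0
    have h1 : Matrix.vecMul x (mat p f) = 0 := by
      have h2 : Matrix.vecMul x (mat p f) ⬝ᵥ Matrix.vecMul x (mat p f) = 0 := by
        have h3 : Matrix.vecMul x (mat p f * (mat p f).transpose) ⬝ᵥ x = 0 := by
          rw [hx0, zero_dotProduct]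
        rw [← Matrix.vecMul_vecMul, Matrix.vecMul_transpose] at h3
        rw [← Matrix.dotProduct_mulVec]
        rw [dotProduct_comm]
        exact h3
      exact dotProduct_self_eq_zero.1 h2
    apply hx
    rw [Fintype.linearIndependent_iff] at h
    funext e
    apply h x
    funext c
    have := congrFun h1 c
    simpa [mat, Matrix.vecMul, dotProduct, Finset.sum_apply] using this
  · intro h
    rw [Fintype.linearIndependent_iff]
    intro g hg
    by_contra hne
    apply h
    apply Matrix.exists_vecMul_eq_zero_iff.1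
    refine ⟨g, fun h0 => hne (fun i => congrFun h0 i), ?_⟩
    rw [← Matrix.vecMul_vecMul]
    have : Matrix.vecMul g (mat p f) = 0 := by
      funext c
      have := congrFun hg c
      simpa [mat, Matrix.vecMul, dotProduct, Finset.sum_apply] using this
    rw [this, Matrix.zero_vecMul]

/-- independent rows: all length changes are possible -/
theorem surj_of_ind {d : ℕ} {ι : Type} [Fintype ι] {p : V → Fin d → ℝ} {f : ι → V × V}
    (h : LinearIndependent ℝ (fun i => row p (f i))) (t : ι → ℝ) :
    ∃ w : V → Fin d → ℝ, ∀ i, S p w (f i).1 (f i).2 = t i := by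
  classical
  rw [gram] at h
  have hu : IsUnit (mat p f * (mat p f).transpose) :=
    (Matrix.isUnit_iff_isUnit_det _).2 (isUnit_iff_ne_zero.2 h)
  obtain ⟨s, hs⟩ := (Matrix.mulVec_surjective_iff_isUnit.2 hu) t
  refine ⟨fun v k => (mat p f).transpose.mulVec s (v, k), fun i => ?_⟩
  rw [← row_dot]
  have h1 := congrFun hs i
  rw [← Matrix.mulVec_mulVec] at h1
  exact h1

/-- if all length changes are possible then the rows are independent -/
theorem ind_of_surj {d : ℕ} {ι : Type} [Fintype ι] {p : V → Fin d → ℝ} {f : ι → V × V}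
    (h : ∀ t : ι → ℝ, ∃ w : V → Fin d → ℝ, ∀ i, S p w (f i).1 (f i).2 = t i) :
    LinearIndependent ℝ (fun i => row p (f i)) := by
  rw [Fintype.linearIndependent_iff]
  intro g hg
  obtain ⟨w, hw⟩ := h g
  have h1 : ∑ i, g i * g i = 0 := by
    calc ∑ i, g i * g i = ∑ i, g i * ∑ c, row p (f i) c * w c.1 c.2 := by
          apply sum_congr rfl
          intro i _
          rw [row_dot, hw i]
      _ = ∑ c : V × Fin d, (∑ i, g i • row p (f i)) c * w c.1 c.2 := by
          simp only [mul_sum, Finset.sum_apply, Pi.smul_apply, smul_eq_mul, sum_mul]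
          rw [sum_comm]
          apply sum_congr rfl
          intro c _
          apply sum_congr rfl
          intro i _
          ring
      _ = 0 := by
          rw [hg]
          simp
  have h2 := (Finset.sum_eq_zero_iff_of_nonneg (fun i _ => mul_self_nonneg (g i))).1 h1
  intro i
  exact mul_self_eq_zero.1 (h2 i (mem_univ i))

/-- the polynomial row -/
noncomputable def rowP (d : ℕ) (e : V × V) : V × Fin d → MvPolynomial (V × Fin d) ℚ := fun c =>
  if c.1 = e.1 then MvPolynomial.X (e.1, c.2) - MvPolynomial.X (e.2, c.2) else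
    if c.1 = e.2 then MvPolynomial.X (e.2, c.2) - MvPolynomial.X (e.1, c.2) else 0

/-- the polynomial matrix -/
noncomputable def matP (d : ℕ) {ι : Type} (f : ι → V × V) :
    Matrix ι (V × Fin d) (MvPolynomial (V × Fin d) ℚ) :=
  Matrix.of (fun i => rowP d (f i))

omit [Fintype V] in
theorem matP_map {d : ℕ} {ι : Type} (f : ι → V × V) (p : V → Fin d → ℝ) :
    (matP d f).map (MvPolynomial.aeval (fun vi : V × Fin d => p vi.1 vi.2)) = mat p f := by
  ext i c
  simp only [matP, mat, Matrix.map_apply, Matrix.of_apply, rowP, row]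
  split_ifs <;> simp

/-- rows which are independent at some placement are independent at generic placements -/
theorem ind_gen {d : ℕ} {ι : Type} [Fintype ι] {f : ι → V × V} {p q : V → Fin d → ℝ}
    (h : LinearIndependent ℝ (fun i => row p (f i))) (hq : Gen q) :
    LinearIndependent ℝ (fun i => row q (f i)) := by
  classical
  rw [gram] at h ⊢
  have key : ∀ r : V → Fin d → ℝ, (mat r f * (mat r f).transpose).det =
      MvPolynomial.aeval (fun vi : V × Fin d => r vi.1 vi.2)
        (matP d f * (matP d f).transpose).det := by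
    intro r
    rw [← AlgHom.coe_toRingHom, RingHom.map_det, RingHom.mapMatrix_apply, Matrix.map_mul,
      Matrix.transpose_map]
    have := matP_map f r
    simp only [AlgHom.coe_toRingHom]
    rw [this]
  rw [key] at h ⊢
  intro h0
  apply h
  have : (matP d f * (matP d f).transpose).det = 0 := by
    apply hq
    rw [h0, map_zero]
  rw [this, map_zero]

/-- placement in dimension `d + 1` -/
def ext {d : ℕ} (p : V → Fin d → ℝ) (y : V → ℝ) : V → Fin (d + 1) → ℝ := fun v => Fin.cons (y v) (p v)

omit [Fintype V] [DecidableEq V] in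
theorem S_ext {d : ℕ} (p w : V → Fin d → ℝ) (y z : V → ℝ) (a b : V) :
    S (ext p y) (ext w z) a b = (y a - y b) * (z a - z b) + S p w a b := by
  unfold S ext
  rw [Fin.sum_univ_succ]
  simp only [Fin.cons_zero, Fin.cons_succ]

omit [Fintype V] [DecidableEq V] in
theorem gen_ext {d : ℕ} {p : V → Fin d → ℝ} {y : V → ℝ}
    (h : AlgebraicIndependent ℚ (Sum.elim y (fun c : V × Fin d => p c.1 c.2))) :
    Gen (ext p y) := by
  let g : V × Fin (d + 1) → V ⊕ (V × Fin d) := fun c =>
    Fin.cases (Sum.inl c.1) (fun k => Sum.inr (c.1, k)) c.2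
  have hg : Function.Injective g := by
    rintro ⟨a, i⟩ ⟨b, j⟩
    refine Fin.cases ?_ (fun i => ?_) i <;> refine Fin.cases ?_ (fun j => ?_) j <;> intro hij
    · simp only [g, Fin.cases_zero, Sum.inl.injEq] at hij
      rw [hij]
    · simp [g] at hij
    · simp [g] at hij
    · simp only [g, Fin.cases_succ, Sum.inr.injEq, Prod.mk.injEq] at hij
      rw [hij.1, hij.2]
  have h1 := h.comp g hg
  have h2 : (Sum.elim y (fun c : V × Fin d => p c.1 c.2)) ∘ g =
      fun c : V × Fin (d + 1) => ext p y c.1 c.2 := by
    funext ⟨a, i⟩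
    refine Fin.cases ?_ (fun i => ?_) i
    · simp [g, ext]
    · simp [g, ext]
  rw [h2] at h1
  exact h1

/-- a linear form vanishing on the rows of `E` vanishes on the rows spanned by `E` -/
theorem S_eq_zero_of_mem {d : ℕ} {p w : V → Fin d → ℝ} {E : Set (V × V)} {e : V × V}
    (he : row p e ∈ Submodule.span ℝ (row p '' E)) (h : ∀ e ∈ E, S p w e.1 e.2 = 0) :
    S p w e.1 e.2 = 0 := by
  rw [← row_dot]
  have key : ∀ r ∈ Submodule.span ℝ (row p '' E), ∑ c, r c * w c.1 c.2 = 0 := by
    intro r hr
    induction hr using Submodule.span_induction with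
    | mem x hx =>
      obtain ⟨e', he', rfl⟩ := hx
      rw [row_dot]
      exact h e' he'
    | zero => simp
    | add x y _ _ hx hy =>
      simp only [Pi.add_apply, add_mul, sum_add_distrib, hx, hy, add_zero]
    | smul a x _ hx =>
      simp only [Pi.smul_apply, smul_eq_mul, mul_assoc, ← mul_sum, hx, mul_zero]
  exact key _ he

/-- the row of `uv` stays in the span of the rows of `E` at the placement `(q, y)` -/
theorem mem_span_ext {d : ℕ} {p q : V → Fin d → ℝ} (hp : Gen p) {E : Set (V × V)}
    (hE : ∀ e ∈ E, S p p e.1 e.2 = S q q e.1 e.2) {y : V → ℝ} (hy : Gen (ext p y)) {u v : V}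
    (huv : row (ext p y) (u, v) ∈ Submodule.span ℝ (row (ext p y) '' E)) :
    row (ext q y) (u, v) ∈ Submodule.span ℝ (row (ext q y) '' E) := by
  classical
  obtain ⟨κ, a, hinj, hspan, hind⟩ := exists_linearIndependent' ℝ (fun e : E => row (ext p y) e.1)
  have hfin : Finite κ := Finite.of_injective a hinj
  have := Fintype.ofFinite κ
  by_contra hnot
  have h1 : LinearIndependent ℝ (fun i => row (ext q y) (a i).1) := by
    apply ind_of_surj
    intro t
    obtain ⟨W, hW⟩ := surj_of_ind (f := fun i => (a i).1) hind t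
    obtain ⟨w', hw'⟩ := vel_transfer hp hE (fun v k => W v k.succ)
    refine ⟨ext w' (fun v => W v 0), fun i => ?_⟩
    have h2 : W = ext (fun v (k : Fin d) => W v k.succ) (fun v => W v 0) := by
      funext v k
      refine Fin.cases ?_ (fun k => ?_) k
      · simp [ext]
      · simp [ext]
    rw [S_ext, hw' _ (a i).2, ← hW i]
    conv_rhs => rw [h2, S_ext]
  have h3 : LinearIndependent ℝ (fun o : Option κ => row (ext q y)
      (Option.elim o (u, v) (fun i => (a i).1))) := by
    have h4 : (fun o : Option κ => row (ext q y) (Option.elim o (u, v) (fun i => (a i).1))) =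
        fun o : Option κ => Option.casesOn' o (row (ext q y) (u, v))
          (fun i => row (ext q y) (a i).1) := by
      funext o
      cases o <;> rfl
    rw [h4, linearIndependent_option']
    refine ⟨h1, fun hmem => hnot ?_⟩
    refine Submodule.span_mono ?_ hmem
    rintro _ ⟨i, rfl⟩
    exact ⟨(a i).1, (a i).2, rfl⟩
  have h5 := ind_gen h3 hy
  have h6 : (fun o : Option κ => row (ext p y) (Option.elim o (u, v) (fun i => (a i).1))) =
      fun o : Option κ => Option.casesOn' o (row (ext p y) (u, v))
        (fun i => row (ext p y) (a i).1) := by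
    funext o
    cases o <;> rfl
  rw [h6, linearIndependent_option'] at h5
  apply h5.2
  have h7 : Submodule.span ℝ (Set.range (fun i => row (ext p y) (a i).1)) =
      Submodule.span ℝ (row (ext p y) '' E) := by
    have h8 : row (ext p y) '' E = Set.range (fun e : E => row (ext p y) e.1) := by
      rw [Set.image_eq_range]
    rw [h8]
    exact hspan
  rw [h7]
  exact huv

/-- **Main theorem.** If the pair `uv` is linked in dimension `d + 1` then it is globally linked in
dimension `d`. -/
theorem main {d : ℕ} {p q : V → Fin d → ℝ} (hp : Gen p) {E : Set (V × V)}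
    (hE : ∀ e ∈ E, S p p e.1 e.2 = S q q e.1 e.2) {u v : V}
    (huv : ∀ P : V → Fin (d + 1) → ℝ, Gen P → row P (u, v) ∈ Submodule.span ℝ (row P '' E)) :
    S p p u v = S q q u v := by
  classical
  -- the pairs of `E` and the pair `uv`
  have step3 : ∀ y : V → ℝ, Gen (ext p y) → ∀ k : Fin d, ∃ w' : V → Fin d → ℝ,
      (∀ e ∈ E, S q w' e.1 e.2 = (p e.1 k - p e.2 k) * (y e.1 - y e.2)) ∧
      S q w' u v = (p u k - p v k) * (y u - y v) := by
    intro y hy k
    have h1 : ∀ a b, S p (fun v j => if j = k then y v else 0) a b =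
        (p a k - p b k) * (y a - y b) := by
      intro a b
      unfold S
      rw [sum_eq_single k]
      · simp
      · intro j _ hj
        simp [hj]
      · intro h
        exact absurd (mem_univ k) h
    obtain ⟨w', hw'⟩ := vel_transfer hp hE (fun v j => if j = k then y v else 0)
    refine ⟨w', fun e he => by rw [hw' e he, h1], ?_⟩
    have h2 := mem_span_ext hp hE hy (huv _ hy)
    have h3 := S_eq_zero_of_mem (w := ext w' (fun v => - p v k)) h2 (by
      intro e he
      rw [S_ext, hw' e he, h1]
      ring)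
    simp only at h3
    rw [S_ext] at h3
    linarith
  have hlin : ∀ w₁ w₂ : V → Fin d → ℝ, ∀ a b, S q (w₁ - w₂) a b = S q w₁ a b - S q w₂ a b := by
    intro w₁ w₂ a b
    unfold S
    rw [← sum_sub_distrib]
    apply sum_congr rfl
    intro k _
    simp only [Pi.sub_apply]
    ring
  have step4 : ∀ z : V → ℝ, ∀ k : Fin d, ∃ w' : V → Fin d → ℝ,
      (∀ e ∈ E, S q w' e.1 e.2 = (p e.1 k - p e.2 k) * (z e.1 - z e.2)) ∧
      S q w' u v = (p u k - p v k) * (z u - z v) := by
    intro z k
    obtain ⟨y, hy1, hy2⟩ := exists_extend hp z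
    obtain ⟨w₁, h1, h1'⟩ := step3 _ (gen_ext hy1) k
    obtain ⟨w₂, h2, h2'⟩ := step3 _ (gen_ext hy2) k
    refine ⟨w₂ - w₁, fun e he => ?_, ?_⟩
    · rw [hlin, h1 e he, h2 e he]
      ring
    · rw [hlin, h1', h2']
      ring
  choose w hw hw' using fun k : Fin d => step4 (fun v => p v k) k
  have hsum : ∀ a b, S q (∑ k, w k) a b = ∑ k, S q (w k) a b := by
    intro a b
    unfold S
    rw [sum_comm]
    apply sum_congr rfl
    intro j _
    simp only [Finset.sum_apply]
    rw [← sum_sub_distrib, mul_sum]
  have hE' : ∀ e ∈ E, S q (∑ k, w k) e.1 e.2 = S p p e.1 e.2 := by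
    intro e he
    rw [hsum]
    unfold S
    exact sum_congr rfl fun k _ => hw k e he
  have huv' : S q (∑ k, w k) u v = S p p u v := by
    rw [hsum]
    unfold S
    exact sum_congr rfl fun k _ => hw' k
  obtain ⟨y, hy, -⟩ := exists_extend hp (fun _ : V => (0 : ℝ))
  have hy' := gen_ext hy
  have h2 := mem_span_ext hp hE hy' (huv _ hy')
  have h3 := S_eq_zero_of_mem (w := ext (∑ k, w k - q) (fun _ => 0)) h2 (by
    intro e he
    rw [S_ext, hlin, hE' e he, hE e he]
    ring)
  simp only at h3
  rw [S_ext, hlin, huv'] at h3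
  linarith

end rows

end Pool.Agent.R115.Lk
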